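import Pool.Agent.H717.NL.Stmts2

set_option autoImplicit false

/-!
# Approximation of all eigenvalues of a Jacobi matrix by divide and conquer and simultaneous bisection

Proof of `S_eig` (see `Pool.Agent.H717.NL.Stmts`).
-/

open Polynomial

namespace Pool.Agent.H404.NL

open Pool.Agent.H717.NL

/-! ### Scalar bisection -/

/-- one bisection step -/
noncomputable def bis (g : ℝ → ℝ) (s : ℝ × ℝ) : ℝ × ℝ :=
  if 0 ≤ g ((s.1 + s.2) / 2) then (s.1, (s.1 + s.2) / 2) else ((s.1 + s.2) / 2, s.2)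

theorem bis_out (g : ℝ → ℝ) (x e h lo hi : ℝ) (he : 0 ≤ e)
    (hA : ∀ t, lo ≤ t → t ≤ hi → (0 ≤ g t ↔ x ≤ t)) (hB : lo - 3 * e ≤ x) (hC : x ≤ hi + 3 * e)
    (hD : hi - lo ≤ 2 * h) (J : ℕ) (hJ : 2 * h / 2 ^ J ≤ e) :
    |(((bis g)^[J] (lo, hi)).1 + ((bis g)^[J] (lo, hi)).2) / 2 - x| ≤ 4 * e := by
  rcases le_or_gt lo hi with hlh | hlh
  · have inv : ∀ m : ℕ, lo ≤ ((bis g)^[m] (lo, hi)).1 ∧
        ((bis g)^[m] (lo, hi)).1 ≤ ((bis g)^[m] (lo, hi)).2 ∧
        ((bis g)^[m] (lo, hi)).2 ≤ hi ∧ ((bis g)^[m] (lo, hi)).1 - 3 * e ≤ x ∧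
        x ≤ ((bis g)^[m] (lo, hi)).2 + 3 * e ∧
        ((bis g)^[m] (lo, hi)).2 - ((bis g)^[m] (lo, hi)).1 = (hi - lo) / 2 ^ m := by
      intro m
      induction m with
      | zero => simp only [Function.iterate_zero, id_eq, pow_zero, div_one]
                exact ⟨le_rfl, hlh, le_rfl, hB, hC, trivial⟩
      | succ m ih =>
        rw [Function.iterate_succ_apply']
        generalize (bis g)^[m] (lo, hi) = s at ih
        obtain ⟨h1, h2, h3, h4, h5, h6⟩ := ih
        have ht1 : lo ≤ (s.1 + s.2) / 2 := by linarith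
        have ht2 : (s.1 + s.2) / 2 ≤ hi := by linarith
        have hA' := hA _ ht1 ht2
        have h7 : (hi - lo) / 2 ^ (m + 1) = (s.2 - s.1) / 2 := by
          rw [h6, pow_succ, div_div]
        rw [h7]
        unfold bis
        split_ifs with hP
        · have := hA'.1 hP
          refine ⟨h1, by show s.1 ≤ (s.1 + s.2) / 2; linarith, ht2, h4, ?_, ?_⟩
          · show x ≤ (s.1 + s.2) / 2 + 3 * e
            linarith
          · show (s.1 + s.2) / 2 - s.1 = (s.2 - s.1) / 2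
            ring
        · have hx : (s.1 + s.2) / 2 < x := by
            by_contra hcon
            exact hP (hA'.2 (not_lt.1 hcon))
          refine ⟨ht1, by show (s.1 + s.2) / 2 ≤ s.2; linarith, h3, ?_, h5, ?_⟩
          · show (s.1 + s.2) / 2 - 3 * e ≤ x
            linarith
          · show s.2 - (s.1 + s.2) / 2 = (s.2 - s.1) / 2
            ring
    obtain ⟨h1, h2, h3, h4, h5, h6⟩ := inv J
    generalize (bis g)^[J] (lo, hi) = s at h1 h2 h3 h4 h5 h6
    have h7 : (hi - lo) / 2 ^ J ≤ e := by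
      refine le_trans ?_ hJ
      have : (0 : ℝ) < 2 ^ J := by positivity
      exact (div_le_div_iff_of_pos_right this).2 hD
    rw [abs_le]
    constructor <;> linarith
  · have inv : ∀ m : ℕ, hi ≤ ((bis g)^[m] (lo, hi)).1 ∧ ((bis g)^[m] (lo, hi)).1 ≤ lo ∧
        hi ≤ ((bis g)^[m] (lo, hi)).2 ∧ ((bis g)^[m] (lo, hi)).2 ≤ lo := by
      intro m
      induction m with
      | zero => simp only [Function.iterate_zero, id_eq]
                exact ⟨hlh.le, le_rfl, le_rfl, hlh.le⟩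
      | succ m ih =>
        rw [Function.iterate_succ_apply']
        generalize (bis g)^[m] (lo, hi) = s at ih
        obtain ⟨h1, h2, h3, h4⟩ := ih
        unfold bis
        split_ifs with hP
        · refine ⟨h1, h2, ?_, ?_⟩
          · show hi ≤ (s.1 + s.2) / 2
            linarith
          · show (s.1 + s.2) / 2 ≤ lo
            linarith
        · refine ⟨?_, ?_, h3, h4⟩
          · show hi ≤ (s.1 + s.2) / 2
            linarith
          · show (s.1 + s.2) / 2 ≤ lo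
            linarith
    obtain ⟨h1, h2, h3, h4⟩ := inv J
    generalize (bis g)^[J] (lo, hi) = s at h1 h2 h3 h4
    rw [abs_le]
    constructor <;> linarith

/-! ### Sorting does not increase the maximal distance -/

theorem sort_le {N : ℕ} (y z : Fin N → ℝ) (e : ℝ) (h : ∀ i, y i ≤ z i + e) (i : Fin N) :
    y (Tuple.sort y i) ≤ z (Tuple.sort z i) + e := by
  by_contra hcon
  have hlt := not_le.1 hcon
  have hmy : Monotone (y ∘ Tuple.sort y) := Tuple.monotone_sort y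
  have hmz : Monotone (z ∘ Tuple.sort z) := Tuple.monotone_sort z
  have hmaps : ∀ m ∈ Finset.Iic i, (Tuple.sort y).symm (Tuple.sort z m) ∈ Finset.Iio i := by
    intro m hm
    rw [Finset.mem_Iic] at hm
    rw [Finset.mem_Iio]
    by_contra hge
    have h1 : y (Tuple.sort y i) ≤ y (Tuple.sort y ((Tuple.sort y).symm (Tuple.sort z m))) :=
      hmy (not_lt.1 hge)
    rw [Equiv.apply_symm_apply] at h1
    have h2 : z (Tuple.sort z m) ≤ z (Tuple.sort z i) := hmz hm
    have h3 := h (Tuple.sort z m)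
    linarith
  have hcard := Finset.card_le_card_of_injOn _ hmaps (fun a _ b _ hab => by
    have := (Tuple.sort y).symm.injective hab
    exact (Tuple.sort z).injective this)
  rw [Fin.card_Iic, Fin.card_Iio] at hcard
  omega

theorem sort_dist {N : ℕ} (y z : Fin N → ℝ) (e : ℝ) (h : ∀ i, |y i - z i| ≤ e) (i : Fin N) :
    |y (Tuple.sort y i) - z (Tuple.sort z i)| ≤ e := by
  have h1 := sort_le y z e (fun i => by have := abs_le.1 (h i); linarith [this.2]) i
  have h2 := sort_le z y e (fun i => by have := abs_le.1 (h i); linarith [this.1]) i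
  rw [abs_le]
  constructor <;> linarith

/-! ### The sign of the characteristic polynomial between the interlacing points -/

theorem sign_lemma {N : ℕ} (l : Fin (N + 1) → ℝ) (d : Fin N → ℝ)
    (hi : ∀ i : Fin N, l i.castSucc ≤ d i ∧ d i ≤ l i.succ) (i : Fin (N + 1)) (t : ℝ)
    (h1 : ∀ j : Fin N, (j : ℕ) < i → d j < t) (h2 : ∀ j : Fin N, (i : ℕ) ≤ j → t < d j) :
    0 ≤ (-1 : ℝ) ^ (Finset.Ioi i).card * ∏ j, (t - l j) ↔ l i ≤ t := by
  have hpow : (-1 : ℝ) ^ (Finset.Ioi i).card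
      = ∏ j ∈ Finset.univ.erase i, (if i < j then (-1 : ℝ) else 1) := by
    rw [Finset.prod_ite, Finset.prod_const, Finset.prod_const_one, mul_one]
    congr 2
    ext j
    simp only [Finset.mem_Ioi, Finset.mem_filter, Finset.mem_erase, Finset.mem_univ, and_true]
    constructor
    · intro h
      exact ⟨ne_of_gt h, h⟩
    · intro h
      exact h.2
  have hprod : ∏ j, (t - l j) = (∏ j ∈ Finset.univ.erase i, (t - l j)) * (t - l i) :=
    (Finset.prod_erase_mul _ _ (Finset.mem_univ i)).symm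
  have hpos : 0 < (-1 : ℝ) ^ (Finset.Ioi i).card * ∏ j ∈ Finset.univ.erase i, (t - l j) := by
    rw [hpow, ← Finset.prod_mul_distrib]
    refine Finset.prod_pos fun j hj => ?_
    have hji : j ≠ i := Finset.ne_of_mem_erase hj
    split_ifs with hij
    · -- `j > i`
      have hj0 : j ≠ 0 := by
        rintro rfl
        exact absurd hij (Fin.not_lt_zero i)
      obtain ⟨j', rfl⟩ := Fin.exists_succ_eq.2 hj0
      have := h2 j' (by
        have : (i : ℕ) < (j'.succ : Fin (N + 1)) := hij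
        rw [Fin.val_succ] at this
        omega)
      have := (hi j').2
      linarith
    · have hlt : j < i := lt_of_le_of_ne (not_lt.1 hij) hji
      have hjl : j ≠ Fin.last N := ne_of_lt (lt_of_lt_of_le hlt (Fin.le_last i))
      obtain ⟨j', rfl⟩ := Fin.exists_castSucc_eq.2 hjl
      have := h1 j' (by
        have : ((j'.castSucc : Fin (N + 1)) : ℕ) < i := hlt
        simpa using this)
      have := (hi j').1
      linarith
  rw [hprod, ← mul_assoc, mul_nonneg_iff_of_pos_left hpos, sub_nonneg]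

/-! ### Cost lemmas -/

theorem cmp_iterate {α β : Type} [Vec α] [Vec β] {f : α → β → β} {c : ℕ}
    (hf : Cmp (fun q : α × β => f q.1 q.2) c) (J : ℕ) :
    Cmp (fun q : α × β => (f q.1)^[J] q.2) (J * c) := by
  induction J with
  | zero => exact (Cmp.snd.mono (by omega)).congr fun _ => rfl
  | succ J ih =>
    have h1 : Cmp (fun q : α × β => (q.1, (f q.1)^[J] q.2)) (J * c) :=
      (Cmp.fst.pair ih).mono (by omega)
    refine ((h1.comp hf).mono ?_).congr fun q => ?_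
    · rw [Nat.succ_mul]
    · rw [Function.iterate_succ_apply']

theorem cmp_two {α : Type} [Vec α] : Cmp (fun _ : α => (2 : ℝ)) 3 :=
  ((Cmp.one (α := α)).add' Cmp.one).congr fun _ => by norm_num

theorem cmp_half {α : Type} [Vec α] {f : α → ℝ} {c : ℕ} (hf : Cmp f c) :
    Cmp (fun a => f a / 2) (c + 4) := (hf.div' cmp_two).mono (by omega)

theorem cmp_double : Cmp (fun x : ℝ => 2 * x) 1 :=
  ((Cmp.id (α := ℝ)).add' Cmp.id).congr fun x => by ring

theorem cmp_scale (m : ℕ) : Cmp (fun x : ℝ => 2 ^ m * x) m := by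
  induction m with
  | zero => exact (Cmp.id (α := ℝ)).congr fun x => by ring
  | succ m ih => exact (ih.comp cmp_double).congr fun x => by ring

theorem cmp_unscale (m : ℕ) : Cmp (fun x : ℝ => x / 2 ^ m) (m * 4) := by
  induction m with
  | zero => exact ((Cmp.id (α := ℝ)).mono (by omega)).congr fun x => by simp
  | succ m ih =>
    refine ((cmp_half ih).mono (by omega)).congr fun x => ?_
    rw [pow_succ, div_div]

theorem cmp_rho (k J : ℕ) : Cmp (fun H : ℝ => 4 ^ k * (2 * H / 2 ^ J)) (2 * k + 4 * J + 1) := by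
  have h1 : Cmp (fun H : ℝ => 2 ^ (2 * k) * (2 * H / 2 ^ J)) (1 + J * 4 + 2 * k) :=
    (cmp_double.comp (cmp_unscale J)).comp (cmp_scale (2 * k))
  refine (h1.mono (by omega)).congr fun H => ?_
  rw [pow_mul]
  norm_num

theorem cmp_sign (m : ℕ) {α : Type} [Vec α] {f : α → ℝ} {c : ℕ} (hf : Cmp f c) :
    Cmp (fun a => (-1 : ℝ) ^ m * f a) (c + 4) := by
  rcases neg_one_pow_eq_or ℝ m with h | h
  · exact (hf.mono (by omega)).congr fun a => by rw [h, one_mul]
  · exact hf.neg'.congr fun a => by rw [h]; ring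

theorem cmp_append {α : Type} [Vec α] (m n : ℕ) :
    Cmp (fun q : (Fin m → α) × (Fin n → α) => Fin.append q.1 q.2) 0 := by
  refine (Cmp.pi (c := 0) fun i => ?_).mono (by omega)
  refine Fin.addCases (fun j => ?_) (fun j => ?_) i
  · exact (Cmp.fst.on (Cmp.proj j)).congr fun q => by rw [Fin.append_left]
  · exact (Cmp.snd.on (Cmp.proj j)).congr fun q => by rw [Fin.append_right]

/-! ### The vector algorithm -/

/-- the decision functions -/
noncomputable def dec (n : ℕ) (q : (Fin n → ℝ) × (Fin n → ℝ)) (i : Fin n) (t : ℝ) : ℝ :=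
  (-1 : ℝ) ^ (Finset.Ioi i).card * (cont (ext q.1) (ext q.2) n).eval t

/-- simultaneous bisection step -/
noncomputable def vbis (n : ℕ) (q : (Fin n → ℝ) × (Fin n → ℝ)) (s : Fin n → ℝ × ℝ) :
    Fin n → ℝ × ℝ := fun i => bis (dec n q i) (s i)

theorem vbis_iterate (n : ℕ) (q : (Fin n → ℝ) × (Fin n → ℝ)) (s : Fin n → ℝ × ℝ) (J : ℕ)
    (i : Fin n) : (vbis n q)^[J] s i = (bis (dec n q i))^[J] (s i) := by
  induction J with
  | zero => rfl
  | succ J ih =>
    rw [Function.iterate_succ_apply', Function.iterate_succ_apply', ← ih]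
    rfl

theorem cmp_vbis (n cv : ℕ)
    (hv : Cmp (fun p : ((Fin n → ℝ) × (Fin n → ℝ)) × (Fin n → ℝ) => fun j : Fin n =>
      (cont (ext p.1.1) (ext p.1.2) n).eval (p.2 j)) cv) :
    Cmp (fun q : ((Fin n → ℝ) × (Fin n → ℝ)) × (Fin n → ℝ × ℝ) => vbis n q.1 q.2)
      (cv + n * 10) := by
  -- midpoints
  have hT : Cmp (fun q : ((Fin n → ℝ) × (Fin n → ℝ)) × (Fin n → ℝ × ℝ) => fun i : Fin n =>
      ((q.2 i).1 + (q.2 i).2) / 2) (n * 5) := by
    refine Cmp.pi fun i => ?_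
    have h1 : Cmp (fun q : ((Fin n → ℝ) × (Fin n → ℝ)) × (Fin n → ℝ × ℝ) => q.2 i) 0 :=
      Cmp.snd.on (Cmp.proj i)
    have h2 : Cmp (fun q : ((Fin n → ℝ) × (Fin n → ℝ)) × (Fin n → ℝ × ℝ) => (q.2 i).1) 0 :=
      h1.on Cmp.fst
    have h3 : Cmp (fun q : ((Fin n → ℝ) × (Fin n → ℝ)) × (Fin n → ℝ × ℝ) => (q.2 i).2) 0 :=
      h1.on Cmp.snd
    exact (cmp_half (h2.add' h3)).mono (by omega)
  -- values
  have hV : Cmp (fun q : (((Fin n → ℝ) × (Fin n → ℝ)) × (Fin n → ℝ × ℝ)) × (Fin n → ℝ) =>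
      fun j : Fin n => (cont (ext q.1.1.1) (ext q.1.1.2) n).eval (q.2 j)) cv :=
    (((Cmp.fst.on Cmp.fst).pair Cmp.snd).mono (by omega)).on hv
  -- decisions
  have hD : Cmp (fun q : ((((Fin n → ℝ) × (Fin n → ℝ)) × (Fin n → ℝ × ℝ)) × (Fin n → ℝ)) ×
      (Fin n → ℝ) => fun i : Fin n =>
      if 0 ≤ (-1 : ℝ) ^ (Finset.Ioi i).card * q.2 i then ((q.1.1.2 i).1, q.1.2 i)
      else (q.1.2 i, (q.1.1.2 i).2)) (n * 5) := by
    refine Cmp.pi fun i => ?_
    have h1 : Cmp (fun q : ((((Fin n → ℝ) × (Fin n → ℝ)) × (Fin n → ℝ × ℝ)) × (Fin n → ℝ)) ×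
      (Fin n → ℝ) => q.2 i) 0 := Cmp.snd.on (Cmp.proj i)
    have h2 : Cmp (fun q : ((((Fin n → ℝ) × (Fin n → ℝ)) × (Fin n → ℝ × ℝ)) × (Fin n → ℝ)) ×
      (Fin n → ℝ) => q.1.2 i) 0 := (Cmp.fst.on Cmp.snd).on (Cmp.proj i)
    have h3 : Cmp (fun q : ((((Fin n → ℝ) × (Fin n → ℝ)) × (Fin n → ℝ × ℝ)) × (Fin n → ℝ)) ×
      (Fin n → ℝ) => q.1.1.2 i) 0 := (Cmp.fst.on (Cmp.fst.on Cmp.snd)).on (Cmp.proj i)
    exact ((cmp_sign (Finset.Ioi i).card h1).ite ((h3.on Cmp.fst).pair h2)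
      (h2.pair (h3.on Cmp.snd))).mono (by omega)
  have hVD := hV.bind hD
  have hall := hT.bind hVD
  exact (hall.mono (by omega)).congr fun q => rfl

/-- the initial intervals -/
noncomputable def init (N : ℕ) (q : ((Fin N → ℝ) × ℝ) × ℝ) : Fin (N + 1) → ℝ × ℝ := fun i =>
  ((Fin.cons (-q.1.2) (fun j => q.1.1 j + 2 * q.2) : Fin (N + 1) → ℝ) i,
    (Fin.snoc (fun j => q.1.1 j - 2 * q.2) q.1.2 : Fin (N + 1) → ℝ) i)

theorem cmp_init (N : ℕ) : Cmp (init N) ((N + 1) * 6) := by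
  refine Cmp.pi fun i => ?_
  have he : Cmp (fun q : ((Fin N → ℝ) × ℝ) × ℝ => 2 * q.2) 1 := Cmp.snd.on cmp_double
  have hH : Cmp (fun q : ((Fin N → ℝ) × ℝ) × ℝ => q.1.2) 0 := Cmp.fst.on Cmp.snd
  have hx : ∀ j : Fin N, Cmp (fun q : ((Fin N → ℝ) × ℝ) × ℝ => q.1.1 j) 0 := fun j =>
    (Cmp.fst.on Cmp.fst).on (Cmp.proj j)
  have hlo : Cmp (fun q : ((Fin N → ℝ) × ℝ) × ℝ =>
      (Fin.cons (-q.1.2) (fun j => q.1.1 j + 2 * q.2) : Fin (N + 1) → ℝ) i) 4 := by
    refine Fin.cases ?_ (fun j => ?_) i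
    · exact (hH.neg'.mono (by omega)).congr fun q => rfl
    · exact (((hx j).add' he).mono (by omega)).congr fun q => rfl
  have hhi : Cmp (fun q : ((Fin N → ℝ) × ℝ) × ℝ =>
      (Fin.snoc (fun j => q.1.1 j - 2 * q.2) q.1.2 : Fin (N + 1) → ℝ) i) 2 := by
    refine Fin.lastCases ?_ (fun j => ?_) i
    · exact (hH.mono (by omega)).congr fun q => by rw [Fin.snoc_last]
    · exact (((hx j).sub' he).mono (by omega)).congr fun q => by rw [Fin.snoc_castSucc]
  exact (hlo.pair hhi).mono (by omega)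

theorem cmp_mid (n : ℕ) : Cmp (fun s : Fin n → ℝ × ℝ => fun i : Fin n =>
    ((s i).1 + (s i).2) / 2) (n * 5) := by
  refine Cmp.pi fun i => ?_
  have h1 : Cmp (fun q : Fin n → ℝ × ℝ => q i) 0 := Cmp.proj i
  exact (cmp_half ((h1.on Cmp.fst).add' (h1.on Cmp.snd))).mono (by omega)

/-! ### Continuants -/

theorem cont_congr {a a' c c' : ℕ → ℝ} : ∀ n : ℕ, (∀ i, i < n → a i = a' i) →
    (∀ i, i < n → c i = c' i) → cont a c n = cont a' c' n
  | 0, _, _ => rfl
  | 1, ha, _ => by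
      simp only [cont]
      rw [ha 0 (by omega)]
  | (n + 2), ha, hc => by
      simp only [cont]
      rw [ha (n + 1) (by omega), hc n (by omega),
        cont_congr (n + 1) (fun i hi => ha i (by omega)) (fun i hi => hc i (by omega)),
        cont_congr n (fun i hi => ha i (by omega)) (fun i hi => hc i (by omega))]

theorem jac_symm (n : ℕ) (a r : ℕ → ℝ) : (jac n a r).IsSymm := by
  refine Matrix.IsSymm.ext fun i j => ?_
  simp only [jac, Matrix.of_apply]
  by_cases h1 : (i : ℕ) = j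
  · rw [if_pos h1, if_pos h1.symm, h1]
  · rw [if_neg h1, if_neg (Ne.symm h1)]
    by_cases h2 : (i : ℕ) + 1 = j
    · have h3 : ¬ ((j : ℕ) + 1 = i) := by omega
      rw [if_pos h2, if_neg h3, if_pos h2]
    · rw [if_neg h2]
      by_cases h3 : (j : ℕ) + 1 = i
      · rw [if_pos h3, if_neg h2]
      · rw [if_neg h3, if_neg h2]

theorem exists_list (h4 : S_jac) (h5 : S_spec) (n : ℕ) (a c : ℕ → ℝ) (hc : ∀ i, 0 ≤ c i) :
    ∃ l : Fin n → ℝ, Monotone l ∧ cont a c n = ∏ i, (X - C (l i)) := by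
  obtain ⟨l, hl1, hl2⟩ := h5 n (jac n a fun i => Real.sqrt (c i)) (jac_symm _ _ _)
  refine ⟨l, hl1, ?_⟩
  rw [← hl2, h4]
  congr 1
  funext i
  exact (Real.sq_sqrt (hc i)).symm

theorem ext_nonneg {n : ℕ} (c : Fin n → ℝ) (hc : ∀ i, 0 ≤ c i) (i : ℕ) : 0 ≤ ext c i := by
  unfold Pool.Agent.H717.NL.ext
  split_ifs
  · exact hc _
  · exact le_rfl

/-! ### The recursion step -/

/-- the function `F` approximates all eigenvalues with error `4^k * (2 * H / 2^J)` -/
def Good (n k J : ℕ) (F : ((Fin n → ℝ) × (Fin n → ℝ)) × ℝ → (Fin n → ℝ)) : Prop :=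
  ∀ (a c : Fin n → ℝ) (H : ℝ), 0 < H → (∀ i, 0 ≤ c i) →
    ∀ l : Fin n → ℝ, Monotone l → cont (ext a) (ext c) n = ∏ i, (X - C (l i)) →
      (∀ i, |l i| ≤ H) → ∀ i, |F ((a, c), H) i - l i| ≤ 4 ^ k * (2 * H / 2 ^ J)

/-- restriction to the first block -/
def res1 (p : ℕ) (a : Fin (p + p + 1) → ℝ) : Fin p → ℝ :=
  fun i => a ⟨(i : ℕ), by omega⟩

/-- restriction to the second block -/
def res2 (p : ℕ) (a : Fin (p + p + 1) → ℝ) : Fin p → ℝ :=
  fun i => a ⟨p + 1 + (i : ℕ), by omega⟩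

theorem ext_res1 (p : ℕ) (a : Fin (p + p + 1) → ℝ) (i : ℕ) (hi : i < p) :
    ext (res1 p a) i = ext a i := by
  unfold Pool.Agent.H717.NL.ext
  rw [dif_pos hi, dif_pos (by omega)]
  rfl

theorem ext_res2 (p : ℕ) (a : Fin (p + p + 1) → ℝ) (i : ℕ) (hi : i < p) :
    ext (res2 p a) i = ext a (p + 1 + i) := by
  unfold Pool.Agent.H717.NL.ext
  rw [dif_pos hi, dif_pos (by omega)]
  rfl

/-- the approximations of the eigenvalues of the two blocks -/
noncomputable def blocks (p : ℕ) (F : ((Fin p → ℝ) × (Fin p → ℝ)) × ℝ → (Fin p → ℝ))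
    (q : ((Fin (p + p + 1) → ℝ) × (Fin (p + p + 1) → ℝ)) × ℝ) : Fin (p + p) → ℝ :=
  Fin.append (F ((res1 p q.1.1, res1 p q.1.2), q.2)) (F ((res2 p q.1.1, res2 p q.1.2), q.2))

/-- the next function -/
noncomputable def next (p k J : ℕ) (F : ((Fin p → ℝ) × (Fin p → ℝ)) × ℝ → (Fin p → ℝ))
    (q : ((Fin (p + p + 1) → ℝ) × (Fin (p + p + 1) → ℝ)) × ℝ) : Fin (p + p + 1) → ℝ := fun i =>
  (((vbis (p + p + 1) q.1)^[J] (init (p + p)
      ((fun j => blocks p F q (Tuple.sort (blocks p F q) j), q.2), 4 ^ k * (2 * q.2 / 2 ^ J))) i).1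
    + ((vbis (p + p + 1) q.1)^[J] (init (p + p)
      ((fun j => blocks p F q (Tuple.sort (blocks p F q) j), q.2),
        4 ^ k * (2 * q.2 / 2 ^ J))) i).2) / 2

theorem cmp_next (p k J cF cv cs : ℕ) (F : ((Fin p → ℝ) × (Fin p → ℝ)) × ℝ → (Fin p → ℝ))
    (hF : Cmp F cF)
    (hv : Cmp (fun q : ((Fin (p + p + 1) → ℝ) × (Fin (p + p + 1) → ℝ)) × (Fin (p + p + 1) → ℝ) =>
      fun j : Fin (p + p + 1) =>
      (cont (ext q.1.1) (ext q.1.2) (p + p + 1)).eval (q.2 j)) cv)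
    (hs : Cmp (fun v : Fin (p + p) → ℝ => fun i => v (Tuple.sort v i)) cs) :
    Cmp (next p k J F) (2 * cF + cs + (2 * k + 4 * J + 1) + (p + p + 1) * 6
      + J * (cv + (p + p + 1) * 10) + (p + p + 1) * 5) := by
  have r1 : Cmp (res1 p) 0 := Cmp.reindex (α := ℝ) (fun i : Fin p => (⟨(i : ℕ), by omega⟩ :
    Fin (p + p + 1)))
  have r2 : Cmp (res2 p) 0 := Cmp.reindex (α := ℝ) (fun i : Fin p => (⟨p + 1 + (i : ℕ), by omega⟩ :
    Fin (p + p + 1)))
  have ha : Cmp (fun q : ((Fin (p + p + 1) → ℝ) × (Fin (p + p + 1) → ℝ)) × ℝ => q.1.1) 0 :=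
    Cmp.fst.on Cmp.fst
  have hc : Cmp (fun q : ((Fin (p + p + 1) → ℝ) × (Fin (p + p + 1) → ℝ)) × ℝ => q.1.2) 0 :=
    Cmp.fst.on Cmp.snd
  have hH : Cmp (fun q : ((Fin (p + p + 1) → ℝ) × (Fin (p + p + 1) → ℝ)) × ℝ => q.2) 0 :=
    Cmp.snd
  have b1 : Cmp (fun q : ((Fin (p + p + 1) → ℝ) × (Fin (p + p + 1) → ℝ)) × ℝ =>
      F ((res1 p q.1.1, res1 p q.1.2), q.2)) cF :=
    ((((ha.on r1).pair (hc.on r1)).pair hH).mono (by omega)).on hF
  have b2 : Cmp (fun q : ((Fin (p + p + 1) → ℝ) × (Fin (p + p + 1) → ℝ)) × ℝ =>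
      F ((res2 p q.1.1, res2 p q.1.2), q.2)) cF :=
    ((((ha.on r2).pair (hc.on r2)).pair hH).mono (by omega)).on hF
  have hb : Cmp (blocks p F) (cF + cF) :=
    ((b1.pair b2).comp (cmp_append (α := ℝ) p p)).mono (by omega)
  have hx : Cmp (fun q : ((Fin (p + p + 1) → ℝ) × (Fin (p + p + 1) → ℝ)) × ℝ =>
      fun j => blocks p F q (Tuple.sort (blocks p F q) j)) (cF + cF + cs) := hb.comp hs
  have he : Cmp (fun q : ((Fin (p + p + 1) → ℝ) × (Fin (p + p + 1) → ℝ)) × ℝ =>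
      4 ^ k * (2 * q.2 / 2 ^ J)) (2 * k + 4 * J + 1) := hH.on (cmp_rho k J)
  have hi : Cmp (fun q : ((Fin (p + p + 1) → ℝ) × (Fin (p + p + 1) → ℝ)) × ℝ =>
      init (p + p) ((fun j => blocks p F q (Tuple.sort (blocks p F q) j), q.2),
        4 ^ k * (2 * q.2 / 2 ^ J)))
      (cF + cF + cs + (2 * k + 4 * J + 1) + (p + p + 1) * 6) :=
    (((hx.pair hH).pair he).comp (cmp_init (p + p))).mono (by omega)
  have hit := cmp_iterate (cmp_vbis (p + p + 1) cv hv) J
  have hall := (((Cmp.fst (α := (Fin (p + p + 1) → ℝ) × (Fin (p + p + 1) → ℝ)) (β := ℝ)).pair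
    hi).comp hit).comp (cmp_mid (p + p + 1))
  exact (hall.mono (by omega)).congr fun q => rfl

theorem good_next (h3 : S_interl) (h4 : S_jac) (h5 : S_spec) (p k J : ℕ)
    (F : ((Fin p → ℝ) × (Fin p → ℝ)) × ℝ → (Fin p → ℝ)) (hF : Good p k J F) :
    Good (p + p + 1) (k + 1) J (next p k J F) := by
  intro a c H hH hc l hl hcont hlH i
  have hce := ext_nonneg c hc
  set e : ℝ := 4 ^ k * (2 * H / 2 ^ J) with he
  have hρ : 0 < 2 * H / 2 ^ J := by positivity
  have he0 : 0 < e := by positivity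
  have hρe : 2 * H / 2 ^ J ≤ e := by
    have h1 : (1 : ℝ) ≤ 4 ^ k := one_le_pow₀ (by norm_num)
    nlinarith
  -- the blocks
  obtain ⟨l1, hl1, hp1⟩ := exists_list h4 h5 p (ext a) (ext c) hce
  obtain ⟨l2, hl2, hp2⟩ := exists_list h4 h5 p (fun i => ext a (p + 1 + i))
    (fun i => ext c (p + 1 + i)) (fun i => hce _)
  set z : Fin (p + p) → ℝ := Fin.append l1 l2 with hz
  set d : Fin (p + p) → ℝ := fun j => z (Tuple.sort z j) with hd
  have hdm : Monotone d := Tuple.monotone_sort z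
  have hzprod : ∏ j, (X - C (z j)) = (∏ j, (X - C (l1 j))) * ∏ j, (X - C (l2 j)) := by
    rw [Fin.prod_univ_add]
    congr 1
    · exact Finset.prod_congr rfl fun j _ => by rw [hz, Fin.append_left]
    · exact Finset.prod_congr rfl fun j _ => by rw [hz, Fin.append_right]
  have hdprod : cont (ext a) (ext c) p *
      cont (fun i => ext a (p + 1 + i)) (fun i => ext c (p + 1 + i)) p = ∏ j, (X - C (d j)) := by
    rw [hp1, hp2, ← hzprod]
    exact (Equiv.prod_comp (Tuple.sort z) fun j => X - C (z j)).symm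
  have hint := h3 (ext a) (ext c) p p hce l d hl hdm hcont hdprod
  have hdH : ∀ j, |d j| ≤ H := by
    intro j
    have h1 := hint j
    have h2 := abs_le.1 (hlH j.castSucc)
    have h6 := abs_le.1 (hlH j.succ)
    rw [abs_le]
    constructor
    · linarith [h1.1, h2.1]
    · linarith [h1.2, h6.2]
  have hzH : ∀ j, |z j| ≤ H := by
    intro j
    have h1 := hdH ((Tuple.sort z).symm j)
    rw [hd] at h1
    simpa using h1
  have e1 : ∀ j, |F ((res1 p a, res1 p c), H) j - l1 j| ≤ e := by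
    refine hF (res1 p a) (res1 p c) H hH (fun j => hc _) l1 hl1 ?_ ?_
    · rw [← hp1]
      exact cont_congr p (fun j hj => ext_res1 p a j hj) (fun j hj => ext_res1 p c j hj)
    · intro j
      have h1 := hzH (Fin.castAdd p j)
      rwa [hz, Fin.append_left] at h1
  have e2 : ∀ j, |F ((res2 p a, res2 p c), H) j - l2 j| ≤ e := by
    refine hF (res2 p a) (res2 p c) H hH (fun j => hc _) l2 hl2 ?_ ?_
    · rw [← hp2]
      exact cont_congr p (fun j hj => ext_res2 p a j hj) (fun j hj => ext_res2 p c j hj)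
    · intro j
      have h1 := hzH (Fin.natAdd p j)
      rwa [hz, Fin.append_right] at h1
  set y : Fin (p + p) → ℝ := blocks p F ((a, c), H) with hy
  have hyz : ∀ j, |y j - z j| ≤ e := by
    intro j
    refine Fin.addCases (fun j => ?_) (fun j => ?_) j
    · rw [hy, hz, blocks, Fin.append_left, Fin.append_left]
      exact e1 j
    · rw [hy, hz, blocks, Fin.append_right, Fin.append_right]
      exact e2 j
  have hxd : ∀ j, |y (Tuple.sort y j) - d j| ≤ e := sort_dist y z e hyz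
  set x : Fin (p + p) → ℝ := fun j => y (Tuple.sort y j) with hx
  -- the bisection
  set lo : ℝ := (Fin.cons (-H) (fun j => x j + 2 * e) : Fin (p + p + 1) → ℝ) i with hlo
  set hi : ℝ := (Fin.snoc (fun j => x j - 2 * e) H : Fin (p + p + 1) → ℝ) i with hhi
  have hlo' : (∀ t, lo ≤ t → ∀ j : Fin (p + p), (j : ℕ) < i → d j < t) ∧ lo - 3 * e ≤ l i ∧
      -H ≤ lo := by
    rw [hlo]
    clear_value lo hi
    refine Fin.cases ?_ (fun i' => ?_) i
    · rw [Fin.cons_zero]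
      refine ⟨fun t _ j hj => absurd hj (by simp), ?_, le_rfl⟩
      have := abs_le.1 (hlH 0)
      linarith [this.1]
    · rw [Fin.cons_succ]
      have h1 := abs_le.1 (hxd i')
      have h1a : -e ≤ x i' - d i' := h1.1
      have h1b : x i' - d i' ≤ e := h1.2
      have h2 := abs_le.1 (hdH i')
      refine ⟨fun t ht j hj => ?_, ?_, ?_⟩
      · have hj' : j ≤ i' := by
          rw [Fin.val_succ] at hj
          exact Fin.le_def.2 (by omega)
        have := hdm hj'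
        linarith
      · have := (hint i').2
        linarith
      · linarith [h2.1]
  have hhi' : (∀ t, t ≤ hi → ∀ j : Fin (p + p), (i : ℕ) ≤ j → t < d j) ∧ l i ≤ hi + 3 * e ∧
      hi ≤ H := by
    rw [hhi]
    clear_value lo hi
    clear hlo'
    refine Fin.lastCases ?_ (fun i' => ?_) i
    · rw [Fin.snoc_last]
      refine ⟨fun t _ j hj => ?_, ?_, le_rfl⟩
      · rw [Fin.val_last] at hj
        exact absurd j.2 (by omega)
      · have := abs_le.1 (hlH (Fin.last (p + p)))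
        linarith [this.2]
    · rw [Fin.snoc_castSucc]
      have h1 := abs_le.1 (hxd i')
      have h1a : -e ≤ x i' - d i' := h1.1
      have h1b : x i' - d i' ≤ e := h1.2
      have h2 := abs_le.1 (hdH i')
      refine ⟨fun t ht j hj => ?_, ?_, ?_⟩
      · have hj' : i' ≤ j := by
          exact Fin.le_def.2 (by simpa using hj)
        have := hdm hj'
        linarith
      · have := (hint i').1
        linarith
      · linarith [h2.2]
  have key := bis_out (dec (p + p + 1) (a, c) i) (l i) e H lo hi he0.le (fun t ht1 ht2 => by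
      have h1 := sign_lemma l d hint i t (hlo'.1 t ht1) (hhi'.1 t ht2)
      rw [← h1]
      unfold dec
      rw [hcont, Polynomial.eval_prod]
      simp only [Polynomial.eval_sub, Polynomial.eval_X, Polynomial.eval_C])
    hlo'.2.1 hhi'.2.1 (by linarith [hlo'.2.2, hhi'.2.2]) J hρe
  have hfin : next p k J F ((a, c), H) i = (((bis (dec (p + p + 1) (a, c) i))^[J] (lo, hi)).1
      + ((bis (dec (p + p + 1) (a, c) i))^[J] (lo, hi)).2) / 2 := by
    unfold next
    rw [vbis_iterate]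
    rfl
  rw [hfin]
  refine key.trans (le_of_eq ?_)
  rw [he, pow_succ]
  ring

theorem cost_aux (K1 K2 k J n : ℕ) (hn : n ≤ 2 ^ (k + 1)) :
    2 * ((K1 + K2 + 40) * 2 ^ k * (k + 1) ^ 6 * (J + 1)) + K2 * 2 ^ (k + 1) * (k + 1 + 1)
      + (2 * k + 4 * J + 1) + n * 6 + J * (K1 * 2 ^ (k + 1) * (k + 1 + 1) ^ 4 + n * 10) + n * 5
      ≤ (K1 + K2 + 40) * 2 ^ (k + 1) * (k + 1 + 1) ^ 6 * (J + 1) := by
  set T : ℕ := 2 ^ (k + 1) with hT
  set m : ℕ := k + 1 + 1 with hm
  have hT1 : 1 ≤ T := Nat.one_le_two_pow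
  have hm1 : 1 ≤ m := by omega
  have hm5 : m ≤ m ^ 5 := Nat.le_self_pow (by norm_num) m
  have h15 : 1 ≤ m ^ 5 := Nat.one_le_pow _ _ hm1
  have hm45 : m ^ 4 ≤ m ^ 5 := Nat.pow_le_pow_right hm1 (by norm_num)
  set A : ℕ := T * (J + 1) with hA
  have hTA : T ≤ A := Nat.le_mul_of_pos_right _ (by omega)
  have hJA : J + 1 ≤ A := Nat.le_mul_of_pos_left _ (by omega)
  have i1 : 2 * ((K1 + K2 + 40) * 2 ^ k * (k + 1) ^ 6 * (J + 1))
      = (K1 + K2 + 40) * (k + 1) ^ 6 * A := by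
    rw [hA, hT, pow_succ]; ring
  have i2 : K2 * T * m ≤ K2 * (m ^ 5 * A) := by
    calc K2 * T * m = K2 * (m * T) := by ring
      _ ≤ K2 * (m ^ 5 * A) := by gcongr
  have i3 : 2 * k + 4 * J + 1 ≤ 4 * (m ^ 5 * A) := by
    have : k + J + 1 ≤ m * (J + 1) := by rw [hm]; nlinarith
    calc 2 * k + 4 * J + 1 ≤ 4 * (k + J + 1) := by omega
      _ ≤ 4 * (m * (J + 1)) := by gcongr
      _ ≤ 4 * (m ^ 5 * A) := by gcongr
  have i4 : n ≤ m ^ 5 * A := by
    calc n ≤ A := hn.trans hTA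
      _ = 1 * A := (one_mul A).symm
      _ ≤ m ^ 5 * A := by gcongr
  have i5 : J * (K1 * T * m ^ 4 + n * 10) ≤ K1 * (m ^ 5 * A) + 10 * (m ^ 5 * A) := by
    have h1 : J * (K1 * T * m ^ 4) ≤ K1 * (m ^ 5 * A) := by
      calc J * (K1 * T * m ^ 4) = K1 * (m ^ 4 * (T * J)) := by ring
        _ ≤ K1 * (m ^ 5 * (T * (J + 1))) := by gcongr; omega
        _ = K1 * (m ^ 5 * A) := by rw [hA]
    have h2 : J * (n * 10) ≤ 10 * (m ^ 5 * A) := by
      calc J * (n * 10) = 10 * (1 * (n * J)) := by ring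
        _ ≤ 10 * (m ^ 5 * (T * (J + 1))) := by gcongr; omega
        _ = 10 * (m ^ 5 * A) := by rw [hA]
    calc J * (K1 * T * m ^ 4 + n * 10) = J * (K1 * T * m ^ 4) + J * (n * 10) := by ring
      _ ≤ _ := by omega
  have i6 : (k + 1) ^ 6 + m ^ 5 ≤ m ^ 6 := by
    have h1 : (k + 1) ^ 5 ≤ m ^ 5 := Nat.pow_le_pow_left (by omega) 5
    calc (k + 1) ^ 6 + m ^ 5 = (k + 1) ^ 5 * (k + 1) + m ^ 5 := by ring
      _ ≤ m ^ 5 * (k + 1) + m ^ 5 := by gcongr
      _ = m ^ 6 := by rw [hm]; ring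
  have i7 : (K1 + K2 + 40) * (k + 1) ^ 6 * A + (K1 + K2 + 40) * (m ^ 5 * A)
      ≤ (K1 + K2 + 40) * T * m ^ 6 * (J + 1) := by
    calc (K1 + K2 + 40) * (k + 1) ^ 6 * A + (K1 + K2 + 40) * (m ^ 5 * A)
        = (K1 + K2 + 40) * (((k + 1) ^ 6 + m ^ 5) * A) := by ring
      _ ≤ (K1 + K2 + 40) * (m ^ 6 * A) := by gcongr
      _ = (K1 + K2 + 40) * T * m ^ 6 * (J + 1) := by rw [hA]; ring
  have i8 : (K1 + K2 + 40) * (m ^ 5 * A) = K1 * (m ^ 5 * A) + K2 * (m ^ 5 * A)
      + 40 * (m ^ 5 * A) := by ring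
  rw [i1]
  omega

/-- **Approximation of all eigenvalues in near-linear time.** -/
theorem t_eig (h1 : S_charval) (h2 : S_sort) (h3 : S_interl) (h4 : S_jac) (h5 : S_spec) :
    S_eig := by
  obtain ⟨K1, hK1⟩ := h1
  obtain ⟨K2, hK2⟩ := h2
  refine ⟨K1 + K2 + 40, fun k J => ?_⟩
  have main : ∀ k : ℕ, ∃ F : ((Fin (2 ^ k - 1) → ℝ) × (Fin (2 ^ k - 1) → ℝ)) × ℝ →
      (Fin (2 ^ k - 1) → ℝ),
      Cmp F ((K1 + K2 + 40) * 2 ^ k * (k + 1) ^ 6 * (J + 1)) ∧ Good (2 ^ k - 1) k J F := by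
    intro k
    induction k with
    | zero =>
      refine ⟨fun _ _ => 0, ?_, ?_⟩
      · refine (Cmp.pi (c := 0) fun i => ?_).mono (by omega)
        exact absurd i.2 (by norm_num)
      · intro a c H hH hc l hl hcont hlH i
        exact absurd i.2 (by norm_num)
    | succ k ih =>
      obtain ⟨F, hF1, hF2⟩ := ih
      have hpow : 1 ≤ 2 ^ k := Nat.one_le_two_pow
      have hn : 2 ^ (k + 1) - 1 = (2 ^ k - 1) + (2 ^ k - 1) + 1 := by
        rw [pow_succ]; omega
      have hv := hK1 (k + 1)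
      have hs := hK2 (k + 1) ((2 ^ k - 1) + (2 ^ k - 1)) (by rw [pow_succ]; omega)
      rw [hn] at hv
      rw [hn]
      refine ⟨next (2 ^ k - 1) k J F, ?_, good_next h3 h4 h5 _ k J F hF2⟩
      exact (cmp_next (2 ^ k - 1) k J _ _ _ F hF1 hv hs).mono
        (cost_aux K1 K2 k J _ (by rw [pow_succ]; omega))
  obtain ⟨F, hF1, hF2⟩ := main k
  exact ⟨F, hF1, hF2⟩

end Pool.Agent.H404.NL
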